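import Mathlib

/-!
# Permutations of hyperplanes: definitions (MP_97f789_ag, Theorem C)
-/

set_option autoImplicit false

namespace Pool.Agent.TC

/-- The determinant of the matrix `[g (i a) = i b]`, for a tuple `i`. -/
def pm {n m : ℕ} (g : Equiv.Perm (Fin n)) (i : Fin m → Fin n) : ℤ :=
  Matrix.det (Matrix.of fun a b : Fin m => if g (i a) = i b then (1 : ℤ) else 0)

/-- `m!` times the trace of the permutation `g` on the `m`-th exterior power of `ℤ ^ n`. -/
def ex (n m : ℕ) (g : Equiv.Perm (Fin n)) : ℤ := ∑ i : Fin m → Fin n, pm g i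

/-- The coordinates of the polytabloid of the set `{y 0, …, y N}`: the determinant of the matrix
with rows `(1, …, 1)` and `[i a = y b]`. -/
def uu {n N : ℕ} (y : Fin (N + 1) → Fin n) (i : Fin N → Fin n) : ℤ :=
  Matrix.det (Matrix.of fun a b : Fin (N + 1) =>
    (Fin.cons 1 (fun a' => if i a' = y b then (1 : ℤ) else 0) : Fin (N + 1) → ℤ) a)

/-- The scalar product of `g u` and `u`, times `N!`. -/
def Bt {n N : ℕ} (y : Fin (N + 1) → Fin n) (g : Equiv.Perm (Fin n)) : ℤ :=
  ∑ i : Fin N → Fin n, uu y i * uu y (g ∘ i)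

/-- The scalar product of two polytabloids, times `N!`. -/
def Gr {n N : ℕ} (y y' : Fin (N + 1) → Fin n) : ℤ := ∑ i : Fin N → Fin n, uu y i * uu y' i

/-- The signed sum over the symmetric group of `{y 0, …, y N}`, acting on the right of `g`. -/
def ksum {n N : ℕ} (y : Fin (N + 1) ↪ Fin n) {R : Type*} [Ring R]
    (f : Equiv.Perm (Fin n) → R) : R :=
  ∑ π : Equiv.Perm (Fin (N + 1)), ((Equiv.Perm.sign π : ℤ) : R) * f (π.viaFintypeEmbedding y)

end Pool.Agent.TC
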